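import Pool.Agent.helper12.DD.Spec2

set_option autoImplicit false

open Pool.Agent.helper49.Blk

namespace Pool.Agent.DD

theorem TNC_mem {G T : Type} [Group G] (R : Subgroup (T → G))
    (hR : R = Subgroup.pi Set.univ (fun t => cmp t R)) (f : T → G) :
    f ∈ R ↔ ∀ t, f t ∈ cmp t R := by
  constructor
  · intro hf t
    exact ⟨f, hf, rfl⟩
  · intro h
    rw [hR, Subgroup.mem_pi]
    intro t _
    exact h t

theorem TNC_norm {G T : Type} [Group G] (R : Subgroup (T → G))
    (hR : R = Subgroup.pi Set.univ (fun t => cmp t R)) (x : T → G) :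
    x ∈ Subgroup.normalizer (R : Set (T → G)) ↔ ∀ t, x t ∈ Subgroup.normalizer (cmp t R : Set G) := by
  constructor
  · intro hx t
    rw [Subgroup.mem_normalizer_iff]
    intro h
    constructor
    · rintro ⟨f, hf, rfl⟩
      have := (Subgroup.mem_normalizer_iff.mp hx f).mp hf
      exact ⟨x * f * x⁻¹, this, rfl⟩
    · rintro ⟨f, hf, hft⟩
      have hx' := inv_mem hx
      have := (Subgroup.mem_normalizer_iff.mp hx' f).mp hf
      refine ⟨x⁻¹ * f * x⁻¹⁻¹, this, ?_⟩
      have e : f t = x t * h * (x t)⁻¹ := hft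
      show (x⁻¹ * f * x⁻¹⁻¹) t = h
      simp only [Pi.mul_apply, Pi.inv_apply, inv_inv]
      rw [e]
      group
  · intro hx
    rw [Subgroup.mem_normalizer_iff]
    intro h
    show h ∈ R ↔ x * h * x⁻¹ ∈ R
    rw [TNC_mem R hR h, TNC_mem R hR (x * h * x⁻¹)]
    constructor
    · intro hh t
      exact (Subgroup.mem_normalizer_iff.mp (hx t) (h t)).mp (hh t)
    · intro hh t
      exact (Subgroup.mem_normalizer_iff.mp (hx t) (h t)).mpr (hh t)

theorem TNC : TNC_stmt := by
  intro G T _ _ C hC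
  ext x
  unfold NC
  simp only [Subgroup.mem_iInf, Subgroup.mem_pi, List.mem_map, Set.mem_univ, true_implies]
  constructor
  · rintro h t R' ⟨R, hR, rfl⟩
    exact (TNC_norm R (hC R hR) x).mp (h R hR) t
  · intro h R hR
    exact (TNC_norm R (hC R hR) x).mpr fun t => h t _ ⟨R, hR, rfl⟩

end Pool.Agent.DD
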